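import Mathlib

set_option autoImplicit false

namespace Pool.Agent.Results.MP_aa1cdf_co.NotBasic

open Matrix Finset

/-- the value of the real quadratic form with Gram matrix `Q` at an integer vector -/
def qf {g : ℕ} (Q : Matrix (Fin g) (Fin g) ℝ) (w : Fin g → ℤ) : ℝ :=
  (fun i => (w i : ℝ)) ⬝ᵥ (Q *ᵥ fun i => (w i : ℝ))

/-- the nonzero integer vectors at which `Q` attains its minimum over nonzero integer vectors -/
def MinVec {g : ℕ} (Q : Matrix (Fin g) (Fin g) ℝ) : Set (Fin g → ℤ) :=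
  {w | w ≠ 0 ∧ ∀ u : Fin g → ℤ, u ≠ 0 → qf Q w ≤ qf Q u}

/-- the lattice of integral symmetric `g × g` matrices -/
def SymLattice (g : ℕ) : Submodule ℤ (Matrix (Fin g) (Fin g) ℤ) where
  carrier := {M | M.IsSymm}
  add_mem' := fun ha hb => ha.add hb
  zero_mem' := isSymm_zero
  smul_mem' := fun c _ h => h.smul c

/-- parity check bits of a binary cyclic code of length 21 -/
def hb (i j : ℕ) : ℤ :=
  if Nat.testBit 630880331374093237378604027162919552999585219743130321921 (9 * j + i) then 1 else 0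

def B : Matrix (Fin 21) (Fin 21) ℤ := fun i j =>
  if i.val < 9 then (if j.val < 9 then (if i = j then 2 else 0) else hb i j)
  else (if i = j then 1 else 0)

def W : Matrix (Fin 21) (Fin 21) ℤ := fun i j =>
  if i.val < 9 then (if j.val < 9 then (if i = j then 1 else 0) else -hb i j)
  else (if i = j then 2 else 0)

theorem BW' : ∀ i j : Fin 21, ∑ k, B i k * W k j = if i = j then 2 else 0 := by decide +kernel
theorem WB' : ∀ i j : Fin 21, ∑ k, W i k * B k j = if i = j then 2 else 0 := by decide +kernel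
theorem WW : ∀ i j : Fin 21, (∑ k, W i k * W j k) % 2 = 0 := by decide +kernel

theorem W0 : ∀ a : Fin 21, a ≠ 0 → W a a * W a a ≠ W a 0 * W a 0 := by decide +kernel

theorem d1 : ∀ a : Fin 21, ∃ i : Fin 21, (W i a) % 2 = 1 := by decide +kernel
theorem d2 : ∀ a b : Fin 21, a < b → ∃ i : Fin 21, (W i a + W i b) % 2 = 1 := by decide +kernel
theorem d3 : ∀ a b : Fin 21, a < b → ∀ c : Fin 21, b < c →
    ∃ i : Fin 21, (W i a + W i b + W i c) % 2 = 1 := by decide +kernel
theorem d4 : ∀ a b : Fin 21, a < b → ∀ c : Fin 21, b < c → ∀ d : Fin 21, c < d →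
    ∃ i : Fin 21, (W i a + W i b + W i c + W i d) % 2 = 1 := by decide +kernel

theorem BW : B * W = (2 : ℤ) • (1 : Matrix (Fin 21) (Fin 21) ℤ) := by
  ext i j
  rw [mul_apply, BW']
  simp [one_apply]

theorem WB : W * B = (2 : ℤ) • (1 : Matrix (Fin 21) (Fin 21) ℤ) := by
  ext i j
  rw [mul_apply, WB']
  simp [one_apply]

theorem dist5 (S : Finset (Fin 21)) (h0 : S.Nonempty) (h4 : S.card ≤ 4) :
    ∃ i : Fin 21, (∑ a ∈ S, W i a) % 2 = 1 := by
  have hs : ∀ i, ∑ a ∈ S, W i a = ((S.sort (· ≤ ·)).map (W i)).sum := by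
    intro i
    rw [← Finset.sum_map_toList]
    exact ((Finset.sort_perm_toList S _).map _).sum_eq.symm
  have hl : (S.sort (· ≤ ·)).length = S.card := Finset.length_sort _
  have hp : (S.sort (· ≤ ·)).Pairwise (· < ·) := (Finset.sortedLT_sort S).pairwise
  have hpos : 0 < S.card := card_pos.2 h0
  simp only [hs]
  generalize S.sort (· ≤ ·) = l at hl hp
  match l, hl, hp with
  | [], hl, _ => simp at hl; omega
  | [a], _, _ => simpa using d1 a
  | [a, b], _, hp => simpa using d2 a b (by simpa using hp)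
  | [a, b, c], _, hp =>
    simp only [List.pairwise_cons, List.mem_cons, forall_eq_or_imp] at hp
    simpa [add_assoc] using d3 a b hp.1.1 c hp.2.1.1
  | [a, b, c, d], _, hp =>
    simp only [List.pairwise_cons, List.mem_cons, forall_eq_or_imp] at hp
    simpa [add_assoc] using d4 a b hp.1.1 c hp.2.1.1 d hp.2.2.1.1
  | _ :: _ :: _ :: _ :: _ :: _, hl, _ => simp at hl; omega

/-- a lattice vector of norm at most four has even coordinates -/
theorem even_of_le (u : Fin 21 → ℤ) (h : ∑ i, (B *ᵥ u) i ^ 2 ≤ 4) (i : Fin 21) :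
    (B *ᵥ u) i % 2 = 0 := by
  set x := B *ᵥ u with hx
  by_contra hi
  set S : Finset (Fin 21) := univ.filter (fun a => x a % 2 = 1) with hS
  have h0 : S.Nonempty := ⟨i, by simp only [hS, mem_filter, mem_univ, true_and]; omega⟩
  have h4 : S.card ≤ 4 := by
    have h1 : ∑ a ∈ S, (1 : ℤ) ≤ ∑ a ∈ S, x a ^ 2 := by
      refine sum_le_sum fun a ha => ?_
      have : x a % 2 = 1 := (mem_filter.1 ha).2
      have : x a ≠ 0 := by omega
      have := sq_pos_of_ne_zero this
      omega
    have h2 : ∑ a ∈ S, x a ^ 2 ≤ ∑ a, x a ^ 2 :=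
      sum_le_sum_of_subset_of_nonneg (subset_univ _) fun _ _ _ => sq_nonneg _
    simp at h1
    omega
  obtain ⟨r, hr⟩ := dist5 S h0 h4
  have h5 : (W *ᵥ x) r = 2 * u r := by
    rw [hx, mulVec_mulVec, WB]
    simp [smul_mulVec]
  have h6 : (W *ᵥ x) r % 2 = (∑ a ∈ S, W r a) % 2 := by
    rw [hS, sum_filter]
    simp only [mulVec, dotProduct]
    apply Int.ModEq.sum
    intro a _
    split_ifs with ha
    · have : x a ≡ 1 [ZMOD 2] := ha
      simpa using this.mul_left (W r a)
    · have : x a ≡ 0 [ZMOD 2] := by unfold Int.ModEq; omega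
      simpa using this.mul_left (W r a)
  omega

theorem Bne (u : Fin 21 → ℤ) (hu : u ≠ 0) : B *ᵥ u ≠ 0 := by
  intro h
  have h5 : W *ᵥ (B *ᵥ u) = (2 : ℤ) • u := by
    rw [mulVec_mulVec, WB]
    simp [smul_mulVec]
  rw [h, mulVec_zero] at h5
  exact hu ((smul_eq_zero.1 h5.symm).resolve_left (by norm_num))

/-- structure of short vectors -/
theorem short (u : Fin 21 → ℤ) (hu : u ≠ 0) (h : ∑ i, (B *ᵥ u) i ^ 2 ≤ 4) :
    4 ≤ ∑ i, (B *ᵥ u) i ^ 2 ∧ ∃ i, u = (fun r => W r i) ∨ u = -(fun r => W r i) := by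
  have he := even_of_le u h
  obtain ⟨i, hi⟩ := Function.ne_iff.1 (Bne u hu)
  set x := B *ᵥ u with hx
  have hi' : x i ≠ 0 := hi
  have hsum : ∑ a, x a ^ 2 = x i ^ 2 + ∑ a ∈ univ.erase i, x a ^ 2 :=
    (add_sum_erase _ _ (mem_univ i)).symm
  have hnn : 0 ≤ ∑ a ∈ univ.erase i, x a ^ 2 := sum_nonneg fun _ _ => sq_nonneg _
  have hxi : x i = 2 ∨ x i = -2 := by
    have h1 := he i
    have h2 : x i ^ 2 ≤ 4 := by omega
    have h3 : x i ≤ 2 := by nlinarith
    have h4 : -2 ≤ x i := by nlinarith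
    omega
  have hsq : x i ^ 2 = 4 := by rcases hxi with h | h <;> rw [h] <;> norm_num
  refine ⟨by omega, i, ?_⟩
  have hz : ∀ a, a ≠ i → x a = 0 := by
    intro a ha
    have h0 : ∑ a ∈ univ.erase i, x a ^ 2 = 0 := by omega
    have := (sum_eq_zero_iff_of_nonneg fun _ _ => sq_nonneg _).1 h0 a (by simp [ha])
    exact pow_eq_zero_iff (two_ne_zero) |>.1 this
  have h5 : ∀ r, 2 * u r = W r i * x i := by
    intro r
    have h6 : (W *ᵥ x) r = 2 * u r := by
      rw [hx, mulVec_mulVec, WB]
      simp [smul_mulVec]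
    rw [← h6]
    simp only [mulVec, dotProduct]
    rw [sum_eq_single i]
    · intro a _ ha; rw [hz a ha, mul_zero]
    · simp
  rcases hxi with h2 | h2
  · left; funext r; have := h5 r; rw [h2] at this; omega
  · right; funext r; have := h5 r; rw [h2] at this; simp only [Pi.neg_apply]; omega

theorem norm_col (i : Fin 21) : ∑ a, (B *ᵥ (fun r => W r i)) a ^ 2 = 4 := by
  have : ∀ a, (B *ᵥ (fun r => W r i)) a = if a = i then 2 else 0 := fun a => BW' a i
  simp only [this]
  rw [sum_eq_single i]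
  · simp
  · intro a _ ha; simp [ha]
  · simp

noncomputable def BR : Matrix (Fin 21) (Fin 21) ℝ := B.map (Int.cast : ℤ → ℝ)

theorem BR_mulVec (u : Fin 21 → ℤ) (a : Fin 21) :
    (BR *ᵥ fun i => (u i : ℝ)) a = ((B *ᵥ u) a : ℝ) := by
  simp [BR, mulVec, dotProduct]

theorem qf_eq (u : Fin 21 → ℤ) : qf (BRᴴ * BR) u = ((∑ a, (B *ᵥ u) a ^ 2 : ℤ) : ℝ) := by
  unfold qf
  rw [← mulVec_mulVec, conjTranspose_eq_transpose_of_trivial, dotProduct_mulVec, vecMul_transpose]
  simp only [dotProduct, BR_mulVec]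
  push_cast
  simp [sq]

theorem posdef : (BRᴴ * BR).PosDef := by
  apply PosDef.conjTranspose_mul_self
  have h : (W.map (Int.cast : ℤ → ℝ)) * BR = (2 : ℝ) • (1 : Matrix (Fin 21) (Fin 21) ℝ) := by
    ext i j
    have := congrArg (Int.cast : ℤ → ℝ) (WB' i j)
    rw [mul_apply]
    push_cast at this
    simp only [BR, map_apply, this]
    simp [one_apply]
  intro x y hxy
  have h1 : (W.map (Int.cast : ℤ → ℝ)) *ᵥ (BR *ᵥ x) = (W.map (Int.cast : ℤ → ℝ)) *ᵥ (BR *ᵥ y) := by
    rw [show BR *ᵥ x = BR *ᵥ y from hxy]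
  rw [mulVec_mulVec, mulVec_mulVec, h] at h1
  simp only [smul_mulVec, one_mulVec] at h1
  exact smul_right_injective _ (by norm_num) h1

theorem result : ∃ (g : ℕ) (v : Fin g → Fin g → ℤ) (Q : Matrix (Fin g) (Fin g) ℝ),
    1 ≤ g ∧ LinearIndependent ℝ (fun i j => (v i j : ℝ)) ∧ Q.PosDef ∧
    MinVec Q = {w | ∃ i, w = v i ∨ w = -v i} ∧
    ∀ (ι : Type) (b : Module.Basis ι ℤ (SymLattice g)),
      ¬ ∀ i, ∃ k, (b k : Matrix (Fin g) (Fin g) ℤ) = vecMulVec (v i) (v i) := by
  refine ⟨21, fun i r => W r i, BRᴴ * BR, by norm_num, ?_, posdef, ?_, ?_⟩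
  · rw [Fintype.linearIndependent_iff]
    intro c hc i
    have h1 : ∀ r, ∑ k, c k * (W r k : ℝ) = 0 := by
      intro r
      have := congrFun hc r
      simpa [Finset.sum_apply] using this
    have h2 : ∑ r, (B i r : ℝ) * ∑ k, c k * (W r k : ℝ) = 2 * c i := by
      simp only [mul_sum]
      rw [sum_comm]
      have h3 : ∀ k, ∑ r, (B i r : ℝ) * (c k * (W r k : ℝ)) = c k * (if i = k then 2 else 0) := by
        intro k
        have := congrArg (Int.cast : ℤ → ℝ) (BW' i k)
        push_cast at this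
        rw [← this, mul_sum]
        exact sum_congr rfl fun r _ => by ring
      simp only [h3]
      simp [mul_comm]
    simp only [h1, mul_zero, sum_const_zero] at h2
    linarith
  · have hne : ∀ i : Fin 21, (fun r => W r i) ≠ 0 := by
      intro i h
      have := norm_col i
      rw [h] at this
      simp at this
    have hlow : ∀ u : Fin 21 → ℤ, u ≠ 0 → 4 ≤ ∑ a, (B *ᵥ u) a ^ 2 := by
      intro u hu
      by_contra h
      have := (short u hu (by omega)).1
      omega
    ext w
    constructor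
    · rintro ⟨hw, hmin⟩
      have := hmin _ (hne 0)
      rw [qf_eq, qf_eq, norm_col] at this
      exact (short w hw (by exact_mod_cast this)).2
    · rintro ⟨i, rfl | rfl⟩
      · refine ⟨hne i, fun u hu => ?_⟩
        rw [qf_eq, qf_eq, norm_col]
        exact_mod_cast hlow u hu
      · refine ⟨neg_ne_zero.2 (hne i), fun u hu => ?_⟩
        rw [qf_eq, qf_eq, mulVec_neg]
        simp only [Pi.neg_apply, neg_sq]
        rw [norm_col]
        exact_mod_cast hlow u hu
  · intro ι b hb
    classical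
    choose k hk using hb
    let M : Matrix (Fin 21) (Fin 21) ℤ := fun i j => (∑ a, W i a * W j a) / 2
    have hM : M.IsSymm := by
      ext i j
      simp only [transpose_apply, M]
      congr 1
      exact sum_congr rfl fun a _ => mul_comm _ _
    have hsum : ∑ a, b (k a) = (2 : ℤ) • (⟨M, hM⟩ : SymLattice 21) := by
      apply Subtype.ext
      rw [Submodule.coe_sum]
      simp only [hk]
      ext i j
      have := WW i j
      simp only [Matrix.sum_apply, vecMulVec_apply, Submodule.coe_smul, Matrix.smul_apply, M,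
        smul_eq_mul]
      omega
    have hk0 : ∀ a, a ≠ 0 → k a ≠ k 0 := by
      intro a ha h
      have h1 : vecMulVec (fun r => W r a) (fun r => W r a) =
          vecMulVec (fun r => W r 0) (fun r => W r 0) := by rw [← hk, ← hk, h]
      have h2 := congrFun (congrFun h1 a) a
      simp only [vecMulVec_apply] at h2
      exact W0 a ha h2
    have h3 := congrArg (fun z => b.repr z (k 0)) hsum
    simp only [map_sum, Module.Basis.repr_self, map_smul, Finsupp.coe_finset_sum,
      Finset.sum_apply, Finsupp.coe_smul, Pi.smul_apply, smul_eq_mul] at h3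
    rw [sum_eq_single 0] at h3
    · simp at h3
      omega
    · intro a _ ha
      exact Finsupp.single_eq_of_ne (hk0 a ha).symm
    · simp

end Pool.Agent.Results.MP_aa1cdf_co.NotBasic
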